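import Mathlib
import Pool.Agent.Q264.PY6

/-!
For every integer `d ≥ 4` let `β` be the real root greater than one of `x ^ d - x - 1`.
Then no power `β ^ k`, `k ≥ 1`, is a Parry number.
-/

namespace Pool.Agent.Results.MP_596674_nt.PowersNotParry

/-- The beta transformation `x ↦ β x - ⌊β x⌋`. -/
noncomputable def T (β x : ℝ) : ℝ := β * x - (⌊β * x⌋ : ℤ)

/-- `β` is a Parry number: the orbit `{T_β^n(1) : n ≥ 1}` is a finite set. -/
def IsParry (β : ℝ) : Prop := {y : ℝ | ∃ n : ℕ, 1 ≤ n ∧ y = (T β)^[n] 1}.Finite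

theorem result : ∀ d : ℕ, 4 ≤ d → ∃ β : ℝ, 1 < β ∧ β ^ d - β - 1 = 0 ∧
    (∀ β' : ℝ, 1 < β' → β' ^ d - β' - 1 = 0 → β' = β) ∧
    ∀ k : ℕ, 1 ≤ k → ¬ IsParry (β ^ k) := by
  intro d hd
  obtain ⟨β, h1, h2⟩ := Q264.PY.root_exists (d := d) (by omega)
  refine ⟨β, h1, by linarith, ?_, ?_⟩
  · intro β' h1' h2'
    exact Q264.PY.root_unique (by omega) h1 h2 h1' (by linarith)
  · intro k hk
    exact Q264.PY.main hd hk h1 h2

end Pool.Agent.Results.MP_596674_nt.PowersNotParry
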